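import Mathlib
import Pool.Agent.LibInter3.Upper
import Pool.Agent.LibInter3.Half

/-!
For every `s` there is `t₀` such that for all `t ≥ t₀` the properties of being 3-wise
`s`-intersecting and `t`-intersecting are incompatible.
-/

namespace Pool.Agent.Results.MP_f9e676_co.Incompatibility

open Finset Filter Topology
open Pool.Agent.LibInter3 (On P3 P2 M le_M exists_M M_pow upper Maj maj_card middle_tendsto)

/-- The uniform measure `|F| / 2 ^ n` of a family `F` of subsets of an `n`-element set. -/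
noncomputable def w {n : ℕ} (F : Finset (Finset (Fin n))) : ℝ := (F.card : ℝ) / 2 ^ n

/-- `F` is `3`-wise `s`-intersecting: any three members (not necessarily distinct) have at least
`s` common elements. -/
def ThreeWise (s : ℕ) {n : ℕ} (F : Finset (Finset (Fin n))) : Prop :=
  ∀ A ∈ F, ∀ B ∈ F, ∀ C ∈ F, s ≤ (A ∩ B ∩ C).card

/-- `F` is `t`-intersecting: any two members (not necessarily distinct) have at least `t` common
elements. -/
def Intersecting (t : ℕ) {n : ℕ} (F : Finset (Finset (Fin n))) : Prop :=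
  ∀ A ∈ F, ∀ B ∈ F, t ≤ (A ∩ B).card

/-- `a_s(n)`: the largest measure of a `3`-wise `s`-intersecting family. -/
noncomputable def a (s n : ℕ) : ℝ :=
  sSup {x : ℝ | ∃ F : Finset (Finset (Fin n)), ThreeWise s F ∧ x = w F}

/-- `b_t(n)`: the largest measure of a `t`-intersecting family. -/
noncomputable def b (t n : ℕ) : ℝ :=
  sSup {x : ℝ | ∃ F : Finset (Finset (Fin n)), Intersecting t F ∧ x = w F}

/-- `c_{s,t}(n)`: the largest measure of a family that is both. -/
noncomputable def c (s t n : ℕ) : ℝ :=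
  sSup {x : ℝ | ∃ F : Finset (Finset (Fin n)), ThreeWise s F ∧ Intersecting t F ∧ x = w F}

/-- The two properties are incompatible. -/
def Incompatible (s t : ℕ) : Prop :=
  liminf (fun n => a s n * b t n) atTop = liminf (fun n => c s t n) atTop

theorem w_nonneg {n : ℕ} (F : Finset (Finset (Fin n))) : 0 ≤ w F := by
  unfold w; positivity

theorem w_le_one {n : ℕ} (F : Finset (Finset (Fin n))) : w F ≤ 1 := by
  unfold w
  rw [div_le_one (by positivity)]
  have h := card_le_univ F
  rw [Fintype.card_finset, Fintype.card_fin] at h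
  exact_mod_cast h

/-- the set of measures of families with a property is finite -/
theorem attained {n : ℕ} (P : Finset (Finset (Fin n)) → Prop) (h0 : P ∅) :
    (∃ F, P F ∧ sSup {x : ℝ | ∃ F : Finset (Finset (Fin n)), P F ∧ x = w F} = w F) ∧
    (∀ F, P F → w F ≤ sSup {x : ℝ | ∃ F : Finset (Finset (Fin n)), P F ∧ x = w F}) := by
  set X := {x : ℝ | ∃ F : Finset (Finset (Fin n)), P F ∧ x = w F} with hX
  have hfin : X.Finite := by
    apply (Set.finite_range (fun F : Finset (Finset (Fin n)) => w F)).subset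
    rintro x ⟨F, _, rfl⟩
    exact ⟨F, rfl⟩
  have hne : X.Nonempty := ⟨w (∅ : Finset (Finset (Fin n))), ∅, h0, rfl⟩
  constructor
  · obtain ⟨F, h1, h2⟩ := hne.csSup_mem hfin
    exact ⟨F, h1, h2⟩
  · intro F hF
    exact le_csSup hfin.bddAbove ⟨F, hF, rfl⟩

/-- transfer to families of sets of natural numbers -/
def toN {n : ℕ} (F : Finset (Finset (Fin n))) : Finset (Finset ℕ) :=
  F.image (fun A => A.map Fin.valEmbedding)

theorem toN_card {n : ℕ} (F : Finset (Finset (Fin n))) : (toN F).card = F.card := by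
  unfold toN
  apply card_image_of_injective
  exact Finset.map_injective _

theorem toN_on {n : ℕ} (F : Finset (Finset (Fin n))) : On n (toN F) := by
  intro A hA
  obtain ⟨B, _, rfl⟩ := mem_image.mp hA
  intro x hx
  obtain ⟨i, _, rfl⟩ := Finset.mem_map.mp hx
  exact mem_range.mpr i.2

theorem toN_P3 {s n : ℕ} {F : Finset (Finset (Fin n))} (h : ThreeWise s F) : P3 s (toN F) := by
  intro A hA B hB C hC
  obtain ⟨A', hA', rfl⟩ := mem_image.mp hA
  obtain ⟨B', hB', rfl⟩ := mem_image.mp hB
  obtain ⟨C', hC', rfl⟩ := mem_image.mp hC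
  rw [← map_inter, ← map_inter, card_map]
  exact h A' hA' B' hB' C' hC'

theorem toN_P2 {t n : ℕ} {F : Finset (Finset (Fin n))} (h : Intersecting t F) :
    P2 t (toN F) := by
  intro A hA B hB
  obtain ⟨A', hA', rfl⟩ := mem_image.mp hA
  obtain ⟨B', hB', rfl⟩ := mem_image.mp hB
  rw [← map_inter, card_map]
  exact h A' hA' B' hB'

/-- transfer back -/
def back (n : ℕ) (A : Finset ℕ) : Finset (Fin n) := univ.filter (fun i => (i : ℕ) ∈ A)

theorem back_map {n : ℕ} {A : Finset ℕ} (hA : A ⊆ range n) :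
    (back n A).map Fin.valEmbedding = A := by
  ext x
  simp only [back, Finset.mem_map, mem_filter, mem_univ, true_and, Fin.valEmbedding_apply]
  constructor
  · rintro ⟨i, hi, rfl⟩; exact hi
  · intro hx
    exact ⟨⟨x, mem_range.mp (hA hx)⟩, hx, rfl⟩

theorem exists_fin {s n : ℕ} {F : Finset (Finset ℕ)} (hon : On n F) (h3 : P3 s F) :
    ∃ G : Finset (Finset (Fin n)), ThreeWise s G ∧ G.card = F.card := by
  refine ⟨F.image (back n), ?_, ?_⟩
  · intro A hA B hB C hC
    obtain ⟨A', hA', rfl⟩ := mem_image.mp hA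
    obtain ⟨B', hB', rfl⟩ := mem_image.mp hB
    obtain ⟨C', hC', rfl⟩ := mem_image.mp hC
    rw [← card_map Fin.valEmbedding, map_inter, map_inter, back_map (hon A' hA'),
      back_map (hon B' hB'), back_map (hon C' hC')]
    exact h3 A' hA' B' hB' C' hC'
  · apply card_image_of_injOn
    intro A hA B hB h
    rw [← back_map (hon A hA), ← back_map (hon B hB), h]

theorem a_eq (s n : ℕ) : a s n = (M s n : ℝ) / 2 ^ n := by
  have hatt := attained (n := n) (ThreeWise s) (by intro A hA; simp at hA)
  apply le_antisymm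
  · obtain ⟨F, hF, h⟩ := hatt.1
    unfold a
    rw [h]
    unfold w
    apply div_le_div_of_nonneg_right _ (by positivity)
    rw [← toN_card]
    exact_mod_cast le_M (toN_on F) (toN_P3 hF)
  · obtain ⟨F, hon, h3, hc⟩ := exists_M s n
    obtain ⟨G, hG, hGc⟩ := exists_fin hon h3
    have := hatt.2 G hG
    unfold a
    refine le_trans (le_of_eq ?_) this
    unfold w
    rw [hGc, hc]

theorem a_const {s n : ℕ} (hs : 1 ≤ s) (hn : 10 * s ≤ n) :
    a s n = (M s (10 * s) : ℝ) / 2 ^ (10 * s) := by
  rw [a_eq]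
  obtain ⟨d, rfl⟩ : ∃ d, n = 10 * s + d := ⟨n - 10 * s, by omega⟩
  rw [M_pow hs (by omega) d, pow_add]
  push_cast
  field_simp

/-- a family and the family of all complements of its members are disjoint -/
theorem b_le {t n : ℕ} (ht : 1 ≤ t) : b t n ≤ 1 / 2 := by
  obtain ⟨F, hF, h⟩ := (attained (n := n) (Intersecting t) (by intro A hA; simp at hA)).1
  unfold b
  rw [h]
  have hd : Disjoint F (F.image (fun A => Aᶜ)) := by
    rw [disjoint_left]
    intro A hA h'
    obtain ⟨B, hB, rfl⟩ := mem_image.mp h'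
    have := hF _ hB _ hA
    simp only [inter_compl, card_empty] at this
    omega
  have h1 : (F ∪ F.image (fun A => Aᶜ)).card ≤ 2 ^ n := by
    have := card_le_univ (F ∪ F.image (fun A => Aᶜ))
    rwa [Fintype.card_finset, Fintype.card_fin] at this
  rw [card_union_of_disjoint hd, card_image_of_injective _ compl_injective] at h1
  unfold w
  rw [div_le_div_iff₀ (by positivity) (by norm_num), one_mul]
  have : ((F.card : ℝ)) + F.card ≤ 2 ^ n := by exact_mod_cast h1
  linarith

theorem maj_int (t n : ℕ) : Intersecting t (Maj t n) := by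
  intro A hA B hB
  simp only [Maj, mem_filter, mem_univ, true_and] at hA hB
  have h1 := card_union_add_card_inter A B
  have h2 : (A ∪ B).card ≤ n := by simpa using card_le_univ (A ∪ B)
  omega

theorem b_ge (t n : ℕ) :
    1 / 2 - (2 * t + 1) / 2 * (((Nat.choose n (n / 2) : ℕ) : ℝ) / 2 ^ n) ≤ b t n := by
  have h1 := (attained (n := n) (Intersecting t) (by intro A hA; simp at hA)).2 _ (maj_int t n)
  refine le_trans ?_ h1
  have h2 := maj_card t n
  have h3 : (2 : ℝ) ^ n ≤ 2 * (Maj t n).card + (2 * t + 1) * (Nat.choose n (n / 2) : ℕ) := by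
    exact_mod_cast h2
  unfold w
  have hp : (0 : ℝ) < 2 ^ n := by positivity
  rw [le_div_iff₀ hp, sub_mul]
  have e : (2 * (t : ℝ) + 1) / 2 * (((Nat.choose n (n / 2) : ℕ) : ℝ) / 2 ^ n) * 2 ^ n =
      (2 * t + 1) / 2 * (Nat.choose n (n / 2) : ℕ) := by field_simp
  rw [e]
  linarith

theorem b_tendsto {t : ℕ} (ht : 1 ≤ t) : Tendsto (fun n => b t n) atTop (𝓝 (1 / 2)) := by
  have h1 : Tendsto (fun n : ℕ => 1 / 2 - (2 * (t : ℝ) + 1) / 2 *
      (((Nat.choose n (n / 2) : ℕ) : ℝ) / 2 ^ n)) atTop (𝓝 (1 / 2)) := by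
    have := (middle_tendsto.const_mul ((2 * (t : ℝ) + 1) / 2)).const_sub (1 / 2)
    simpa using this
  exact tendsto_of_tendsto_of_tendsto_of_le_of_le h1 tendsto_const_nhds
    (fun n => b_ge t n) (fun n => b_le ht)

/-- upward closure -/
def upc {n : ℕ} (F : Finset (Finset (Fin n))) : Finset (Finset (Fin n)) :=
  univ.filter (fun B => ∃ A ∈ F, A ⊆ B)

theorem mem_upc {n : ℕ} {F : Finset (Finset (Fin n))} {B : Finset (Fin n)} :
    B ∈ upc F ↔ ∃ A ∈ F, A ⊆ B := by
  simp [upc]

theorem upc_upper {n : ℕ} (F : Finset (Finset (Fin n))) :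
    IsUpperSet (upc F : Set (Finset (Fin n))) := by
  intro B C hBC hB
  rw [SetLike.mem_coe, mem_upc] at hB ⊢
  obtain ⟨A, hA, h⟩ := hB
  exact ⟨A, hA, h.trans hBC⟩

theorem sub_upc {n : ℕ} (F : Finset (Finset (Fin n))) : F ⊆ upc F := fun A hA =>
  mem_upc.mpr ⟨A, hA, Subset.refl _⟩

theorem prod_le_c (s t n : ℕ) : a s n * b t n ≤ c s t n := by
  obtain ⟨F, hF, h1⟩ := (attained (n := n) (ThreeWise s) (by intro A hA; simp at hA)).1
  obtain ⟨G, hG, h2⟩ := (attained (n := n) (Intersecting t) (by intro A hA; simp at hA)).1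
  have hH := (attained (n := n) (fun F => ThreeWise s F ∧ Intersecting t F)
    ⟨by intro A hA; simp at hA, by intro A hA; simp at hA⟩).2 (upc F ∩ upc G) (by
      constructor
      · intro A hA B hB C hC
        rw [mem_inter, mem_upc] at hA hB hC
        obtain ⟨A', a1, a2⟩ := hA.1
        obtain ⟨B', b1, b2⟩ := hB.1
        obtain ⟨C', c1, c2⟩ := hC.1
        exact (hF A' a1 B' b1 C' c1).trans
          (card_le_card (inter_subset_inter (inter_subset_inter a2 b2) c2))
      · intro A hA B hB
        rw [mem_inter, mem_upc, mem_upc] at hA hB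
        obtain ⟨A', a1, a2⟩ := hA.2
        obtain ⟨B', b1, b2⟩ := hB.2
        exact (hG A' a1 B' b1).trans (card_le_card (inter_subset_inter a2 b2)))
  have hc : c s t n = sSup {x : ℝ | ∃ F : Finset (Finset (Fin n)),
      (ThreeWise s F ∧ Intersecting t F) ∧ x = w F} := by
    unfold c
    congr 1
    ext x
    simp only [Set.mem_ofPred_eq, and_assoc]
  rw [hc]
  refine le_trans ?_ hH
  unfold a b
  rw [h1, h2]
  have hk := (upc_upper F).le_card_inter_finset (upc_upper G)
  rw [Fintype.card_fin] at hk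
  have hk' : ((upc F).card : ℝ) * (upc G).card ≤ 2 ^ n * (upc F ∩ upc G).card := by
    exact_mod_cast hk
  have f1 : (F.card : ℝ) ≤ (upc F).card := by exact_mod_cast card_le_card (sub_upc F)
  have g1 : (G.card : ℝ) ≤ (upc G).card := by exact_mod_cast card_le_card (sub_upc G)
  unfold w
  rw [div_mul_div_comm, div_le_div_iff₀ (by positivity) (by positivity)]
  have hp : (0 : ℝ) < 2 ^ n := by positivity
  have h5 : (F.card : ℝ) * G.card ≤ (upc F).card * (upc G).card :=
    mul_le_mul f1 g1 (by positivity) (by positivity)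
  calc (F.card : ℝ) * G.card * 2 ^ n ≤ (upc F).card * (upc G).card * 2 ^ n :=
        mul_le_mul_of_nonneg_right h5 hp.le
    _ ≤ 2 ^ n * (upc F ∩ upc G).card * 2 ^ n := mul_le_mul_of_nonneg_right hk' hp.le
    _ = _ := by ring

/-- For every `s ≥ 1` there is `t₀` such that for every `t ≥ t₀` the properties of being 3-wise
`s`-intersecting and `t`-intersecting are incompatible. -/
theorem result : ∀ s : ℕ, 1 ≤ s → ∃ t₀ : ℕ, ∀ t : ℕ, t₀ ≤ t → Incompatible s t := by
  intro s hs
  obtain ⟨t0, j, hup⟩ := upper hs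
  refine ⟨max t0 1, ?_⟩
  intro t ht
  have ht0 : t0 ≤ t := (le_max_left _ _).trans ht
  have ht1 : 1 ≤ t := (le_max_right _ _).trans ht
  set α : ℝ := (M s (10 * s) : ℝ) / 2 ^ (10 * s) with hα
  have ha : Tendsto (fun n => a s n) atTop (𝓝 α) := by
    apply tendsto_const_nhds.congr'
    filter_upwards [eventually_ge_atTop (10 * s)] with n hn
    exact (a_const hs hn).symm
  have hab : Tendsto (fun n => a s n * b t n) atTop (𝓝 (α / 2)) := by
    have := ha.mul (b_tendsto ht1)
    have e : α * (1 / 2) = α / 2 := by ring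
    rwa [e] at this
  have hc : Tendsto (fun n => c s t n) atTop (𝓝 (α / 2)) := by
    refine tendsto_of_tendsto_of_tendsto_of_le_of_le' hab tendsto_const_nhds ?_ ?_
    · exact Eventually.of_forall (fun n => prod_le_c s t n)
    · filter_upwards [eventually_ge_atTop j] with n hn
      have hatt := (attained (n := n) (fun F => ThreeWise s F ∧ Intersecting t F)
        ⟨by intro A hA; simp at hA, by intro A hA; simp at hA⟩).1
      have hc : c s t n = sSup {x : ℝ | ∃ F : Finset (Finset (Fin n)),
          (ThreeWise s F ∧ Intersecting t F) ∧ x = w F} := by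
        unfold c
        congr 1
        ext x
        simp only [Set.mem_ofPred_eq, and_assoc]
      rw [hc]
      obtain ⟨F, ⟨hF3, hF2⟩, h⟩ := hatt
      rw [h]
      unfold w
      rw [← toN_card]
      exact hup t ht0 n hn (toN F) (toN_on F) (toN_P3 hF3) (toN_P2 hF2)
  unfold Incompatible
  rw [hab.liminf_eq, hc.liminf_eq]

end Pool.Agent.Results.MP_f9e676_co.Incompatibility
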